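import Mathlib
import Pool.Agent.R428.G.Loc

/-!
# Project QK (helper51): the curve `y² = x³ + 2 D x` above `1 + i`, the key lemma

There is no point with `x` a uniformizer.
-/

set_option autoImplicit false

namespace Pool.Agent.E8helper51.QK

open WithZero
open Pool.Agent.Y682 (S1)
open Pool.Agent.Y715.Z (exp_sq)
open Pool.Agent.R428.G (L2 w_i i_ne exp_lt_one')

variable {L : Type} [Field L] {w : Valuation L ℤᵐ⁰} {i : L}

lemma exp_odd {g : ℤᵐ⁰} {k : ℤ} (h : g ^ 2 = exp k) (hk : ¬ 2 ∣ k) : False := by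
  have h1 := congrArg WithZero.log h
  rw [WithZero.log_pow, WithZero.log_exp, nsmul_eq_mul] at h1
  exact hk ⟨WithZero.log g, by rw [← h1]; norm_num⟩

/-- there is no point with `x` a uniformizer -/
theorem key (H : L2 w i) {D x y : L} (hD : w (D - 1) ≤ exp (-3 : ℤ))
    (hxy : y ^ 2 = x * (x ^ 2 + 2 * D)) (hx : w x = exp (-1 : ℤ)) : False := by
  have hl := H.lam
  have hl0 := H.lam_ne
  have hi := H.hi
  have hwi := w_i (w := w) hi
  have hmul : ∀ (a b : ℤ) (x y : L), w x ≤ exp a → w y ≤ exp b → w (x * y) ≤ exp (a + b) := by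
    intro a b x y hx hy
    rw [map_mul, exp_add]
    exact mul_le_mul' hx hy
  have hle : ∀ (a b : ℤ) (x : L), w x ≤ exp a → a ≤ b → w x ≤ exp b := fun a b x hx hab =>
    hx.trans (exp_le_exp.2 hab)
  have hadd : ∀ (a : ℤ) (x y : L), w x ≤ exp a → w y ≤ exp a → w (x + y) ≤ exp a :=
    fun a x y hx hy => (Valuation.map_add _ _ _).trans (max_le hx hy)
  have h3 : w (3 : L) ≤ exp (0 : ℤ) := by rw [H.three, exp_zero]
  have h2 : w (2 : L) ≤ exp (-2 : ℤ) := H.h2.le
  have hpi2 : (1 + i) ^ 2 = 2 * i := by linear_combination hi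
  -- `x = (1 + i) u`
  obtain ⟨u, hu⟩ : ∃ u : L, x = (1 + i) * u := ⟨x / (1 + i), by field_simp⟩
  have hwu : w u = 1 := by
    rw [hu, map_mul, hl] at hx
    have : w u = exp (1 : ℤ) * (exp (-1 : ℤ) * w u) := by
      rw [← mul_assoc, ← exp_add]; norm_num
    rw [this, hx, ← exp_add]
    norm_num
  have ha := H.res' hwu
  obtain ⟨a, hua⟩ : ∃ a : L, a = u - 1 := ⟨_, rfl⟩
  rw [← hua] at ha
  have hD1 : w ((D - 1) * u) ≤ exp (-3 : ℤ) := by
    rw [map_mul, hwu, mul_one]
    exact hD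
  have h3i : w (3 - i) ≤ exp (-1 : ℤ) := by
    have e : 3 - i = (1 + i) * (1 - 2 * i) := by linear_combination 2 * hi
    rw [e]
    have h5 : w (1 - 2 * i) ≤ exp (0 : ℤ) := by
      rw [exp_zero]
      refine (Valuation.map_sub _ _ _).trans (max_le (by rw [map_one]) ?_)
      rw [map_mul, hwi, mul_one, H.h2]
      exact (exp_lt_one' (by norm_num)).le
    exact hle _ _ _ (hmul _ _ _ _ hl.le h5) (by norm_num)
  -- the main estimate
  have hmain0 : w ((3 - i) * a + 3 * (a * a) + a * (a * a)) ≤ exp (-3 : ℤ) := by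
    by_cases ha2 : w a ≤ exp (-2 : ℤ)
    · refine hadd _ _ _ (hadd _ _ _ ?_ ?_) ?_
      · exact hle _ _ _ (hmul _ _ _ _ h3i ha2) (by norm_num)
      · exact hle _ _ _ (hmul _ _ _ _ h3 (hmul _ _ _ _ ha2 ha2)) (by norm_num)
      · exact hle _ _ _ (hmul _ _ _ _ ha2 (hmul _ _ _ _ ha2 ha2)) (by norm_num)
    · have ha1 : w a = exp (-1 : ℤ) := by
        apply le_antisymm ha
        by_contra h
        push Not at h
        apply ha2
        have := Pool.Agent.R428.G.lt_succ h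
        simpa using this
      obtain ⟨k, hk⟩ : ∃ k : L, a = (1 + i) * k := ⟨a / (1 + i), by field_simp⟩
      have hwk : w k = 1 := by
        rw [hk, map_mul, hl] at ha1
        have : w k = exp (1 : ℤ) * (exp (-1 : ℤ) * w k) := by
          rw [← mul_assoc, ← exp_add]; norm_num
        rw [this, ha1, ← exp_add]
        norm_num
      have hb := H.res' hwk
      have hk0 : w (k * k) ≤ exp (0 : ℤ) := by rw [map_mul, hwk, exp_zero, mul_one]
      have hi0 : w i ≤ exp (0 : ℤ) := by rw [hwi, exp_zero]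
      have e : (3 - i) * a + 3 * (a * a) + a * (a * a) =
          a * ((1 + i) * (2 * (2 - i) + (3 * (k - 1) + (1 + i) * (k * k)))) := by
        rw [hk]
        linear_combination (2 * ((1 + i) * k)) * hi
      rw [e]
      have h6 : w (2 - i) ≤ exp (0 : ℤ) := by
        refine (Valuation.map_sub _ _ _).trans (max_le ?_ hi0)
        exact h2.trans (exp_le_exp.2 (by norm_num))
      have h5 : w (2 * (2 - i) + (3 * (k - 1) + (1 + i) * (k * k))) ≤ exp (-1 : ℤ) := by
        refine hadd _ _ _ ?_ (hadd _ _ _ ?_ ?_)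
        · exact hle _ _ _ (hmul _ _ _ _ h2 h6) (by norm_num)
        · exact hle _ _ _ (hmul _ _ _ _ h3 hb) (by norm_num)
        · exact hle _ _ _ (hmul _ _ _ _ hl.le hk0) (by norm_num)
      exact hle _ _ _ (hmul _ _ _ _ ha (hmul _ _ _ _ hl.le h5)) (by norm_num)
  have hmain : w (u ^ 3 - i * D * u + i - 1) ≤ exp (-3 : ℤ) := by
    have e : u ^ 3 - i * D * u + i - 1 =
        ((3 - i) * a + 3 * (a * a) + a * (a * a)) + (-i) * ((D - 1) * u) := by
      rw [hua]; ring
    rw [e]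
    refine hadd _ _ _ hmain0 ?_
    have h5 : w (-i) ≤ exp (0 : ℤ) := by rw [Valuation.map_neg, hwi, exp_zero]
    exact hle _ _ _ (hmul _ _ _ _ h5 hD1) (by norm_num)
  refine H.no_sq (q := y / (1 + i) ^ 2) (Or.inl ?_)
  have h4 : (1 + i) ^ 4 = -4 := by
    have : (1 + i) ^ 4 = ((1 + i) ^ 2) ^ 2 := by ring
    rw [this, hpi2]
    linear_combination 4 * hi
  have e : (y / (1 + i) ^ 2) ^ 2 + i = (u ^ 3 - i * D * u + i - 1) / (1 + i) := by
    have e4 : ((1 + i) ^ 2) ^ 2 = (1 + i) ^ 4 := by ring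
    rw [div_pow, e4, hxy, hu]
    rw [div_add' _ _ _ (pow_ne_zero 4 hl0), div_eq_div_iff (pow_ne_zero 4 hl0) hl0]
    linear_combination ((1 + i) * ((1 + i) * D * u * (2 + i) + (1 + i) ^ 3)) * hi
  rw [e, map_div₀, hl, div_le_iff₀ (zero_lt_iff.2 exp_ne_zero), ← exp_add]
  exact hmain.trans (exp_le_exp.2 (by norm_num))

end Pool.Agent.E8helper51.QK
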