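import Mathlib
import Pool.Agent.R428.G.Gm
import Pool.Agent.E8helper51.QK.Key2

/-!
# Project QK (helper51): the descent for `y² = x³ + 2 D x` over `ℚ(i)`

Adapted from `Pool/Agent/R428/G/Sel.lean`.
-/

set_option autoImplicit false
set_option linter.unusedSectionVars false

open NumberField IsDedekindDomain

namespace Pool.Agent.E8helper51.QK

open WithZero
open Pool.Agent.Y682 (S1 S2 vv vv_coe IsT Zc Zc_card Zc_lower LL1 LL2 Sq quot_eq)
open Pool.Agent.Y699 (PP qr pi1 pi1_prime plc pg pg_span pg_prime plc_pg)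
open Pool.Agent.Y715.Z (em0 em0_ne em0_inj em0_apply plc_mem val_lt val_le val_one val_z val_sqf ph
  not_dvd_of_loc hens_odd exp_sq exists_sqf im1_sq S2_S1 cls1)
open H385 (ZI RQ im1 nrm)
open Pool.Agent.Y697.MQ (OP leg ci gA gθ leg_mul leg_I leg_ne ci_ne T_cases leg_eq_zero leg_congr
  prim_iff_Pr)
open Pool.Agent.R428.G (toPP sgn2 sgn3 leg_of_sqrt sqf_prod not_two pi_dvd dvd_pi_of_two l2_place
  near_one L2)

/-- the value of a member of the local image is a square -/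
lemma even2 {L : Type} [Field L] {w : Valuation L ℤᵐ⁰} {i : L} (H : L2 w i) {D m : L}
    (hD : w (D - 1) ≤ exp (-3 : ℤ)) (h : S1 0 (2 * D) m) : ∃ g, w m = g ^ 2 := by
  have hwD : w D = 1 := by
    have e : D = 1 + (D - 1) := by ring
    rw [e, Valuation.map_add_eq_of_lt_left, map_one]
    rw [map_one]
    exact lt_of_le_of_lt hD (Pool.Agent.R428.G.exp_lt_one' (by norm_num))
  have hwB : w (2 * D) = exp (-2 : ℤ) := by rw [map_mul, hwD, mul_one, H.h2]
  rcases h with h | h | ⟨hm, y, hy⟩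
  · exact ⟨1, by rw [h, map_one, one_pow]⟩
  · exact ⟨exp (-1 : ℤ), by rw [h, hwB, ← exp_nsmul]; rfl⟩
  · have hwm : w m ≠ 0 := (Valuation.ne_zero_iff _).2 hm
    rw [zero_mul, add_zero] at hy
    obtain ⟨k, hk⟩ : ∃ k : ℤ, w m = exp k := ⟨log (w m), (exp_log hwm).symm⟩
    by_cases hev : 2 ∣ k
    · obtain ⟨j, hj⟩ := hev
      refine ⟨exp j, ?_⟩
      rw [hk, hj, ← exp_nsmul]
      congr 1
    · exfalso
      have hm2 : w (m ^ 2) = exp (2 * k) := by
        rw [map_pow, hk, ← exp_nsmul]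
        congr 1
      have e := congrArg w hy
      rw [map_pow, map_mul] at e
      rcases lt_trichotomy k (-1) with h1 | h1 | h1
      · have h2 : w (m ^ 2 + 2 * D) = exp (-2 : ℤ) := by
          rw [Valuation.map_add_eq_of_lt_right, hwB]
          rw [hwB, hm2, exp_lt_exp]
          omega
        rw [h2, hk, ← exp_add] at e
        exact exp_odd e (by omega)
      · subst h1
        exact key H hD hy hk
      · have h2 : w (m ^ 2 + 2 * D) = exp (2 * k) := by
          rw [Valuation.map_add_eq_of_lt_left, hm2]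
          rw [hwB, hm2, exp_lt_exp]
          omega
        rw [h2, hk, ← exp_add] at e
        exact exp_odd e (by omega)

section

variable {K : Type} [Field K] [NumberField K] (e : ZI ≃+* 𝓞 K)

/-- evenness from the values -/
lemma not_dvd_of_even {z : ZI} (hz : Prime z) {d : ZI} (hd : Squarefree d) {b w : K} (hw : w ≠ 0)
    (hb : b = em0 e d * w ^ 2)
    (h : ∃ y m : (plc e hz).adicCompletion K, y ≠ 0 ∧ ph e hz b * y ^ 2 = m ∧
      ∃ g, vv (plc e hz) m = g ^ 2) : ¬ z ∣ d := by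
  intro hzd
  obtain ⟨y, m, hy, hym, g, hg⟩ := h
  have hvy : vv (plc e hz) y ≠ 0 := (Valuation.ne_zero_iff _).2 hy
  have hvw : (plc e hz).valuation K w ≠ 0 := (Valuation.ne_zero_iff _).2 hw
  rw [← hym, map_mul, vv_coe, map_pow, hb, map_mul, val_sqf e hz hd hzd, map_pow] at hg
  apply exp_sq (g := g / ((plc e hz).valuation K w * vv (plc e hz) y))
  rw [div_pow, ← hg, mul_pow]
  field_simp

/-- the local condition at a prime dividing `D` -/
lemma loc_bad3 {z : ZI} (hz : Prime z) (hP : OP z) {B d d' u : ZI} (hB0 : B ≠ 0)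
    (hwB : (plc e hz).valuation K (em0 e B) = exp (-1 : ℤ))
    {b w : K} (hw : w ≠ 0) (hb : b = em0 e d * w ^ 2)
    (h : ∃ y m : (plc e hz).adicCompletion K, y ≠ 0 ∧ ph e hz b * y ^ 2 = m ∧
      S1 0 (ph e hz (em0 e B)) m) :
    (¬ z ∣ d → leg z d = 1) ∧
      (Squarefree d → z ∣ d → d * d' = B * u ^ 2 → ¬ z ∣ d' → leg z d' = 1) := by
  obtain ⟨y, m, hy, hym, hm⟩ := h
  have h2' : (plc e hz).valuation K 2 = 1 := by
    have := val_one e hz hP.two
    rwa [map_ofNat] at this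
  have hwD : vv (plc e hz) (ph e hz (em0 e B)) = exp (-1 : ℤ) := by
    rw [vv_coe, hwB]
  have hlt : exp (-1 : ℤ) < (1 : ℤᵐ⁰) := by
    rw [← exp_zero, exp_lt_exp]; norm_num
  have hphD : ph e hz (em0 e B) ≠ 0 := (map_ne_zero _).2 (em0_ne e hB0)
  obtain ⟨c, hc, hmc⟩ := cls1 (vv (plc e hz)) (fun t ht => hens_odd (plc e hz) h2' t ht)
    hphD (by rw [hwD]; exact hlt) (fun x hx => by
      rw [hwD]
      by_cases hx0 : vv (plc e hz) x = 0
      · rw [hx0]; exact zero_le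
      · rw [← exp_log hx0] at hx ⊢
        rw [← exp_zero, exp_lt_exp] at hx
        rw [exp_le_exp]
        omega) hm
  have hpw : ph e hz w ≠ 0 := (map_ne_zero _).2 hw
  have hvy : vv (plc e hz) y ≠ 0 := (Valuation.ne_zero_iff _).2 hy
  have hvc : vv (plc e hz) c ≠ 0 := (Valuation.ne_zero_iff _).2 hc
  have hvw : vv (plc e hz) (ph e hz w) ≠ 0 := (Valuation.ne_zero_iff _).2 hpw
  have hm2 : ph e hz (em0 e d) * (ph e hz w * y) ^ 2 = m := by
    rw [← hym, hb, map_mul, map_pow]; ring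
  constructor
  · intro hzd
    rcases hmc with h1 | h1
    · apply leg_of_sqrt e hz hP hzd (x := c / (ph e hz w * y))
      rw [div_pow, ← h1, ← hm2]
      field_simp
    · exfalso
      have h3 := congrArg (vv (plc e hz)) (hm2.trans h1)
      rw [map_mul, map_mul, vv_coe, val_one e hz hzd, one_mul, map_pow, map_pow, map_mul, hwD] at h3
      apply exp_sq (g := vv (plc e hz) (ph e hz w) * vv (plc e hz) y / vv (plc e hz) c)
      rw [div_pow, h3]
      field_simp
  · intro hd hzd hdd hzd'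
    rcases hmc with h1 | h1
    · exfalso
      have h3 := congrArg (vv (plc e hz)) (hm2.trans h1)
      rw [map_mul, vv_coe, val_sqf e hz hd hzd, map_pow, map_pow, map_mul] at h3
      apply exp_sq (g := vv (plc e hz) c / (vv (plc e hz) (ph e hz w) * vv (plc e hz) y))
      rw [div_pow, ← h3]
      field_simp
    · have hpd : ph e hz (em0 e d) ≠ 0 := (map_ne_zero _).2 (em0_ne e hd.ne_zero)
      apply leg_of_sqrt e hz hP hzd'
        (x := ph e hz (em0 e u) * (ph e hz w * y) / c)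
      have h4 : ph e hz (em0 e d) * ph e hz (em0 e d') =
          ph e hz (em0 e B) * ph e hz (em0 e u) ^ 2 := by
        rw [← map_mul, ← map_mul, hdd, map_mul, map_mul, map_pow, map_pow]
      have h5 : ph e hz (em0 e d) * (ph e hz w * y) ^ 2 = ph e hz (em0 e B) * c ^ 2 := hm2.trans h1
      rw [div_pow, mul_pow]
      rw [div_eq_iff (pow_ne_zero 2 hc)]
      apply mul_left_cancel₀ (mul_ne_zero hphD hpd)
      linear_combination (ph e hz (em0 e B) * ph e hz (em0 e u) ^ 2) * h5 -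
        (ph e hz (em0 e B) * c ^ 2) * h4

/-- the symbol of `2` -/
lemma leg_two {p : GaussianInt} (hp : OP p) : leg p 2 = ci p := by
  have h2 : (2 : GaussianInt) = im1 * ((im1 * pi1) * (im1 * pi1)) := by decide
  have h3 : ¬ p ∣ im1 * pi1 := by
    intro h
    apply hp.two
    rw [h2]
    exact (h.mul_right _).mul_left _
  have hI : leg p im1 = ci p := leg_I hp
  have h4 : leg p ((im1 * pi1) * (im1 * pi1)) = 1 := by
    rw [leg_mul hp.pr]
    rcases leg_ne h3 with h | h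
    · rw [h]; norm_num
    · rw [h]; norm_num
  rw [h2, leg_mul hp.pr, h4, mul_one, hI]

lemma B2_ne {S : Finset GaussianInt} (hS : ∀ l ∈ S, OP l) : (2 * ∏ l ∈ S, l : ZI) ≠ 0 :=
  mul_ne_zero (by decide) (Finset.prod_ne_zero_iff.2 fun l hl => (hS l hl).pr.ne_zero)

/-- **the Selmer group** -/
theorem sel3 {S : Finset GaussianInt} (hS : ∀ l ∈ S, OP l)
    (hker : ∀ t : GaussianInt → ZMod 2, (∀ v ∈ S, gθ v * t v + ∑ u ∈ S, gA v u * (t v + t u) = 0) →
      ∀ v ∈ S, t v = 0) {b : K} (hb : b ≠ 0)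
    (h : ∀ v : HeightOneSpectrum (𝓞 K), ∃ y m : v.adicCompletion K, y ≠ 0 ∧
      algebraMap K (v.adicCompletion K) b * y ^ 2 = m ∧
        S1 0 (algebraMap K (v.adicCompletion K) (em0 e (2 * ∏ l ∈ S, l))) m) :
    ∃ c : K, b = c ^ 2 ∨ b = em0 e (2 * ∏ l ∈ S, l) * c ^ 2 := by
  classical
  obtain ⟨d, w, hd, hw, hbd⟩ := exists_sqf e hb
  have hDsq : Squarefree (∏ l ∈ S, l) := sqf_prod hS
  -- the prime `1 + i`
  have hpi : ¬ pi1 ∣ d := by
    apply not_dvd_of_even e pi1_prime hd hw hbd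
    obtain ⟨y, m, hy, hym, hm⟩ := h (plc e pi1_prime)
    refine ⟨y, m, hy, hym, ?_⟩
    have hL2 := l2_place e (plc e pi1_prime : HeightOneSpectrum (𝓞 K)) rfl
    have hn := near_one e (pi_dvd hS) (plc e pi1_prime : HeightOneSpectrum (𝓞 K)) rfl
    refine even2 hL2 hn ?_
    rw [map_mul, map_mul, map_ofNat, map_ofNat] at hm
    exact hm
  -- the primes of `d`
  have hprime : ∀ ρ : ZI, Prime ρ → ρ ∣ d → ρ ∣ ∏ l ∈ S, l := by
    intro ρ hρ hρd
    by_contra hρD
    have hρ2 : ¬ ρ ∣ 2 := by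
      intro h2
      apply hpi
      have h3 : (2 : ZI) = pi1 * (pi1 * (-im1)) := by decide
      have hρp : ρ ∣ pi1 := by
        rw [h3] at h2
        rcases hρ.dvd_or_dvd h2 with h4 | h4
        · exact h4
        · rcases hρ.dvd_or_dvd h4 with h5 | h5
          · exact h5
          · exfalso
            exact hρ.not_isUnit (isUnit_of_dvd_unit h5 (IsUnit.of_mul_eq_one im1 (by decide)))
      exact ((hρ.dvd_prime_iff_associated pi1_prime).1 hρp).symm.dvd.trans hρd
    exact not_dvd_of_loc e hρ (fun h' => (hρ.dvd_or_dvd h').elim hρ2 hρD) hd hw hbd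
      (h (plc e hρ)) hρd
  set T := S.filter (fun l => l ∣ d) with hT
  have hTS : T ⊆ S := Finset.filter_subset _ _
  have hcop : ∀ a ∈ S, ∀ b ∈ S, a ≠ b → IsCoprime a b := fun a ha b hb hab =>
    ((hS a ha).pr.irreducible.coprime_iff_not_dvd).2 fun h1 => hab ((hS a ha).dvd (hS b hb) h1)
  have hTd : (∏ l ∈ T, l) ∣ d := by
    refine Finset.prod_dvd_of_coprime ?_ ?_
    · intro i hi j hj hij
      exact hcop i (hTS hi) j (hTS hj) hij
    · intro i hi
      exact (Finset.mem_filter.1 hi).2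
  obtain ⟨u, hu⟩ := hTd
  have huu : IsUnit u := by
    by_contra hnu
    have hu0 : u ≠ 0 := by
      rintro rfl
      exact hd.ne_zero (by rw [hu, mul_zero])
    obtain ⟨ρ, hρ, hρu⟩ := WfDvdMonoid.exists_irreducible_factor hnu hu0
    have hρ' : Prime ρ := irreducible_iff_prime.1 hρ
    have h1 : ρ ∣ d := by rw [hu]; exact hρu.mul_left _
    have h2 := hprime ρ hρ' h1
    obtain ⟨l, hl, hρl⟩ := (hρ'.dvd_finsetProd_iff _).1 h2
    have h3 : l ∣ ρ := by
      obtain ⟨c, hc⟩ := hρl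
      rcases (hS l hl).pr.irreducible.isUnit_or_isUnit hc with h4 | h4
      · exact absurd h4 hρ'.not_isUnit
      · obtain ⟨c', hc'⟩ := h4.exists_right_inv
        exact ⟨c', by rw [hc, mul_assoc, hc', mul_one]⟩
    have h4 : l ∈ T := Finset.mem_filter.2 ⟨hl, h3.trans h1⟩
    have h5 : l * l ∣ d := by
      rw [hu]
      exact mul_dvd_mul (Finset.dvd_prod_of_mem _ h4) (h3.trans hρu)
    exact (hS l hl).pr.not_isUnit (hd _ h5)
  have hnu : ∀ p : ZI, Prime p → ¬ p ∣ u := fun p hp h' => hp.not_isUnit (isUnit_of_dvd_unit h' huu)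
  have hmem : ∀ (U : Finset ZI), U ⊆ S → ∀ p ∈ S, p ∣ ∏ l ∈ U, l → p ∈ U := by
    intro U hU p hp h'
    obtain ⟨l, hl, hpl⟩ := ((hS p hp).pr.dvd_finsetProd_iff _).1 h'
    rw [(hS p hp).dvd (hS l (hU hl)) hpl]
    exact hl
  have hval : ∀ (p : ZI) (hp : p ∈ S), (plc e (hS p hp).pr : HeightOneSpectrum (𝓞 K)).valuation K
      (em0 e (2 * ∏ l ∈ S, l)) = exp (-1 : ℤ) := by
    intro p hp
    rw [map_mul, map_mul, val_one e (hS p hp).pr (hS p hp).two, one_mul,
      val_sqf e (hS p hp).pr hDsq (Finset.dvd_prod_of_mem _ hp)]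
  have hcases := T_cases hS hTS huu hker ?_ ?_
  · rcases hcases with ⟨hu1, hT1⟩ | ⟨hu1, hT1⟩
    · rw [hT1, Finset.prod_empty, one_mul] at hu
      have hu2 : u = 1 ∨ u = -1 := sq_eq_sq_iff_eq_or_eq_neg.1 (hu1.trans (one_pow 2).symm)
      rcases hu2 with h2 | h2
      · exact ⟨w, Or.inl (by rw [hbd, hu, h2, map_one, one_mul])⟩
      · refine ⟨em0 e im1 * w, Or.inl ?_⟩
        rw [hbd, hu, h2, mul_pow, im1_sq, map_neg, map_one]
    · rw [hT1] at hu
      have hu2 : u = im1 ∨ u = -im1 := by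
        apply sq_eq_sq_iff_eq_or_eq_neg.1
        rw [hu1]; decide
      have hq0 : em0 e (im1 * pi1) ≠ 0 := em0_ne e (mul_ne_zero (by decide) pi1_prime.ne_zero)
      have hB : em0 e (2 * ∏ l ∈ S, l) = em0 e im1 * em0 e (∏ l ∈ S, l) * em0 e (im1 * pi1) ^ 2 := by
        rw [← map_pow, ← map_mul, ← map_mul]
        congr 1
        have h2 : (2 : ZI) = im1 * (im1 * pi1) ^ 2 := by decide
        rw [h2]
        ring
      rcases hu2 with h2 | h2
      · refine ⟨w / em0 e (im1 * pi1), Or.inr ?_⟩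
        rw [hbd, hu, h2, hB, map_mul, div_pow]
        field_simp
      · refine ⟨em0 e im1 * w / em0 e (im1 * pi1), Or.inr ?_⟩
        have hsq := im1_sq (K := K) e
        rw [hbd, hu, h2, hB, map_mul, map_neg, div_pow, mul_pow, hsq]
        field_simp
  · intro p hp D' hD'
    have hpS := hTS hp
    have hpD' : ¬ p ∣ D' := by
      rintro ⟨c, hc⟩
      have h5 : p * p ∣ ∏ l ∈ S, l := by
        rw [hD', hc]
        exact mul_dvd_mul (Finset.dvd_prod_of_mem _ hp) ⟨c, rfl⟩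
      exact (hS p hpS).pr.not_isUnit (hDsq _ h5)
    have h6 := (loc_bad3 (d' := u * (2 * D')) (u := u) e (hS p hpS).pr (hS p hpS) (B2_ne hS)
      (hval p hpS) hw hbd (h (plc e (hS p hpS).pr))).2 hd (Finset.mem_filter.1 hp).2
      (by rw [hu, hD']; ring) (by
        intro h7
        rcases (hS p hpS).pr.dvd_or_dvd h7 with h8 | h8
        · exact hnu p (hS p hpS).pr h8
        · rcases (hS p hpS).pr.dvd_or_dvd h8 with h9 | h9
          · exact (hS p hpS).two h9
          · exact hpD' h9)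
    rw [leg_mul (hS p hpS).pr, leg_mul (hS p hpS).pr, leg_two (hS p hpS)] at h6
    exact sgn3 (leg_ne (hnu p (hS p hpS).pr)) (leg_ne hpD') (ci_ne (hS p hpS).pm) h6
  · intro p hp hpT
    have hpd : ¬ p ∣ d := fun h' => hpT (Finset.mem_filter.2 ⟨hp, h'⟩)
    have h6 := (loc_bad3 (d' := 1) (u := 1) e (hS p hp).pr (hS p hp) (B2_ne hS)
      (hval p hp) hw hbd (h (plc e (hS p hp).pr))).1 hpd
    have hpT' : ¬ p ∣ ∏ l ∈ T, l := fun h' => hpT (hmem T hTS p hp h')
    rw [hu, leg_mul (hS p hp).pr] at h6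
    exact sgn2 (leg_ne (hnu p (hS p hp).pr)) (leg_ne hpT') h6

/-- there is at most one element of Sha killed by two, and the rank is zero -/
theorem sha_rank3 {S : Finset GaussianInt} (hS : ∀ l ∈ S, OP l)
    (hker : ∀ t : GaussianInt → ZMod 2, (∀ v ∈ S, gθ v * t v + ∑ u ∈ S, gA v u * (t v + t u) = 0) →
      ∀ v ∈ S, t v = 0) {W : WeierstrassCurve K} (hT : IsT W 0 (em0 e (2 * ∏ l ∈ S, l))) :
    Module.finrank ℤ (Pool.Agent.Y682.MP W) = 0 ∧
      ∀ x : Pool.Agent.TH841.NF.D.Sha W, 2 • x = 0 → x = 0 := by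
  classical
  have hD0 : em0 e (2 * ∏ l ∈ S, l) ≠ 0 := em0_ne e (B2_ne hS)
  let U : Set (Kˣ ⧸ Sq K) := {(1 : Kˣ ⧸ Sq K),
    ((Units.mk0 (em0 e (2 * ∏ l ∈ S, l)) hD0 : Kˣ) : Kˣ ⧸ Sq K)}
  have hUf : U.Finite := Set.toFinite U
  have hfin : Finite U := hUf.to_subtype
  have hU2 : Nat.card U ≤ 2 := by
    have h1 : U.ncard ≤ 2 := by
      refine (Set.ncard_insert_le _ _).trans ?_
      rw [Set.ncard_singleton]
    exact h1
  have key : ∀ b : Kˣ, (∃ c : K, (b : K) = c ^ 2 ∨ (b : K) = em0 e (2 * ∏ l ∈ S, l) * c ^ 2) →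
      (b : Kˣ ⧸ Sq K) ∈ U := by
    rintro b ⟨c, hc⟩
    have hc0 : c ≠ 0 := by
      rintro rfl
      rcases hc with hc | hc
      · rw [zero_pow two_ne_zero] at hc; exact b.ne_zero hc
      · rw [zero_pow two_ne_zero, mul_zero] at hc; exact b.ne_zero hc
    rcases hc with hc | hc
    · left
      have h1 : (1 : Kˣ ⧸ Sq K) = ((1 : Kˣ) : Kˣ ⧸ Sq K) := rfl
      rw [h1, eq_comm, quot_eq]
      refine ⟨Units.mk0 c hc0, Units.ext ?_⟩
      rw [Units.val_mul, Units.val_one, one_mul, Units.val_pow_eq_pow_val, Units.val_mk0, hc]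
    · right
      show (b : Kˣ ⧸ Sq K) = ((Units.mk0 (em0 e (2 * ∏ l ∈ S, l)) hD0 : Kˣ) : Kˣ ⧸ Sq K)
      rw [eq_comm, quot_eq]
      refine ⟨Units.mk0 c hc0, Units.ext ?_⟩
      rw [Units.val_mul, Units.val_pow_eq_pow_val, Units.val_mk0, Units.val_mk0, hc]
  have H1 : ∀ b : Kˣ, LL1 (0 : K) (em0 e (2 * ∏ l ∈ S, l)) (b : K) → (b : Kˣ ⧸ Sq K) ∈ U := by
    intro b hb
    apply key
    apply sel3 e hS hker b.ne_zero
    intro v
    have := hb.1 v
    rwa [map_zero] at this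
  have H2 : ∀ b : Kˣ, LL2 (0 : K) (em0 e (2 * ∏ l ∈ S, l)) (b : K) → (b : Kˣ ⧸ Sq K) ∈ U := by
    intro b hb
    apply key
    apply sel3 e hS hker b.ne_zero
    intro v
    have := Pool.Agent.Y682.charZero_adic v
    have h1 := hb.1 v
    rw [map_zero] at h1
    refine S2_S1 (i := algebraMap K (v.adicCompletion K) (em0 e im1)) ?_ h1
    rw [← map_pow, im1_sq, map_neg, map_one]
  obtain ⟨hf, hc⟩ := Zc_card hT (U := U) (V := U) (Or.inl rfl) H1 H2
  obtain ⟨h3, h4⟩ := Zc_lower hT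
  have h6 : Nat.card (Zc W) ≤ 4 := hc.trans (by nlinarith)
  have h8 := h4.trans h6
  have hpos : 0 < Nat.card {x : Pool.Agent.TH841.NF.D.Sha W // 2 • x = 0} := by
    have : Nonempty {x : Pool.Agent.TH841.NF.D.Sha W // 2 • x = 0} := ⟨⟨0, smul_zero _⟩⟩
    exact Nat.card_pos
  constructor
  · by_contra hne
    have h7 : 2 ≤ 2 ^ (Module.finrank ℤ (Pool.Agent.Y682.MP W)) := by
      calc 2 = 2 ^ 1 := by norm_num
        _ ≤ _ := Nat.pow_le_pow_right (by norm_num) (by omega)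
    nlinarith
  · intro x hx
    have h5 : Nat.card {x : Pool.Agent.TH841.NF.D.Sha W // 2 • x = 0} ≤ 1 := by
      have h7 : 1 ≤ 2 ^ (Module.finrank ℤ (Pool.Agent.Y682.MP W)) := Nat.one_le_two_pow
      nlinarith
    have h6 : Subsingleton {x : Pool.Agent.TH841.NF.D.Sha W // 2 • x = 0} :=
      Finite.card_le_one_iff_subsingleton.1 h5
    have h7 := @Subsingleton.elim _ h6 ⟨x, hx⟩ ⟨0, smul_zero _⟩
    exact congrArg Subtype.val h7

end

end Pool.Agent.E8helper51.QK
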