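import Pool.Agent.E8helper75.QK.Stm
import Pool.Agent.E8helper51.QK.Sel

/-!
# Project QK (helper51): the descent, part SHAK
-/

set_option autoImplicit false

namespace Pool.Agent.E8helper51.QK

open Pool.Agent.E8helper75.QK (S_SHAK B2)

/-- part SHAK of project QK -/
theorem t_SHAK : S_SHAK := fun _ _ _ e _ hS hker _ hT => sha_rank3 e hS hker hT

end Pool.Agent.E8helper51.QK
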